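import Pool.Agent.K7.H29.BC.Trees

/-!
# Descending chains in groups of finite Hirsch length, and detection element by element
-/

set_option autoImplicit false

namespace Pool.Agent.K7.H29.BC

open Pool.Agent.Y110.FJ Pool.Agent.K7.H87.FJ3 Pool.Agent.R684.FP
open Pool.Agent.R941.FJ (C_le C_equiv)
open Pool.Agent.Helper270.Tree (TreeAct)

/-- **finite Hirsch length**: the smallest class of groups which contains the cyclic groups and the
torsion groups and is closed under extensions -/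
inductive FinHirsch : ∀ (G : Type) [Group G], Prop
  | cyclic (G : Type) [Group G] (g : G) : (∀ x : G, ∃ k : ℤ, x = g ^ k) → FinHirsch G
  | torsion (G : Type) [Group G] : (∀ x : G, IsOfFinOrder x) → FinHirsch G
  | ext (A G B : Type) [Group A] [Group G] [Group B] (ι : A →* G) (π : G →* B) :
      Function.Injective ι → Function.Surjective π → (∀ x : G, π x = 1 ↔ ∃ a, ι a = x) →
      FinHirsch A → FinHirsch B → FinHirsch G

/-- the chain drops at `i`: some element of `L i` has infinite order modulo `L (i + 1)` -/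
def Dr {G : Type} [Group G] (L : ℕ → Subgroup G) (i : ℕ) : Prop :=
  ∃ x ∈ L i, ∀ k : ℕ, 0 < k → x ^ k ∉ L (i + 1)

/-- a descending chain in which each term is normal in the preceding one -/
structure Chn {G : Type} [Group G] (L : ℕ → Subgroup G) : Prop where
  anti : ∀ i, L (i + 1) ≤ L i
  nrm : ∀ i, ∀ x ∈ L i, ∀ y ∈ L (i + 1), x * y * x⁻¹ ∈ L (i + 1)

theorem Chn.pow_mem {G : Type} [Group G] {L : ℕ → Subgroup G} (h : Chn L) {i : ℕ} {x y : G}
    (hx : x ∈ L i) (hy : y ∈ L (i + 1)) (k : ℕ) : ∃ z ∈ L (i + 1), (y * x) ^ k = z * x ^ k := by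
  induction k with
  | zero => exact ⟨1, Subgroup.one_mem _, by simp⟩
  | succ k ih =>
    obtain ⟨z, hz, hzk⟩ := ih
    refine ⟨z * (x ^ k * y * (x ^ k)⁻¹), Subgroup.mul_mem _ hz
      (h.nrm i _ (Subgroup.pow_mem _ hx k) y hy), ?_⟩
    rw [pow_succ, hzk, pow_succ]
    group

/-- groups in which every such chain has at most `n` drops -/
def HB (n : ℕ) (G : Type) [Group G] : Prop :=
  ∀ L : ℕ → Subgroup G, Chn L → {i | Dr L i}.encard ≤ n

theorem FinHirsch.bound {G : Type} [Group G] (h : FinHirsch G) : ∃ n, HB n G := by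
  induction h with
  | cyclic G g hg =>
    refine ⟨1, fun L hL => ?_⟩
    have key : ∀ i j, i < j → Dr L i → ¬ Dr L j := by
      intro i j hij hi hj
      obtain ⟨x, hx, hxk⟩ := hi
      obtain ⟨y, hy, hyk⟩ := hj
      have hanti : ∀ m, L (i + 1 + m) ≤ L (i + 1) := by
        intro m
        induction m with
        | zero => exact le_rfl
        | succ m ih => exact (hL.anti _).trans ih
      have hy' : y ∈ L (i + 1) := by
        obtain ⟨m, rfl⟩ := Nat.exists_eq_add_of_le (Nat.succ_le_of_lt hij)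
        exact hanti m hy
      obtain ⟨a, ha⟩ := hg x
      obtain ⟨b, hb⟩ := hg y
      by_cases hb0 : b = 0
      · apply hyk 1 one_pos
        rw [hb, hb0]
        simp
      · have h1 : x ^ b.natAbs ∈ L (i + 1) := by
          have h2 : x ^ b = y ^ a := by
            rw [ha, hb, ← zpow_mul, ← zpow_mul, mul_comm]
          have h3 : x ^ b ∈ L (i + 1) := h2 ▸ Subgroup.zpow_mem _ hy' a
          rcases Int.natAbs_eq b with h4 | h4
          · rw [h4, zpow_natCast] at h3
            exact h3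
          · rw [h4, zpow_neg, zpow_natCast, Subgroup.inv_mem_iff] at h3
            exact h3
        exact hxk _ (Int.natAbs_pos.2 hb0) h1
    have h1 : {i | Dr L i}.Subsingleton := by
      intro i hi j hj
      rcases lt_trichotomy i j with h | h | h
      · exact absurd hj (key i j h hi)
      · exact h
      · exact absurd hi (key j i h hj)
    exact_mod_cast Set.encard_le_one_iff_subsingleton.2 h1
  | torsion G hG =>
    refine ⟨0, fun L hL => ?_⟩
    have h1 : {i | Dr L i} = ∅ := by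
      ext i
      simp only [Set.mem_setOf_eq, Set.mem_empty_iff_false, iff_false]
      rintro ⟨x, hx, hk⟩
      obtain ⟨k, hk0, hk1⟩ := isOfFinOrder_iff_pow_eq_one.1 (hG x)
      exact hk k hk0 (by rw [hk1]; exact Subgroup.one_mem _)
    rw [h1, Set.encard_empty]
    simp
  | ext A G B ι π hι hπ hex _ _ ihA ihB =>
    obtain ⟨a, ha⟩ := ihA
    obtain ⟨b, hb⟩ := ihB
    refine ⟨a + b, fun L hL => ?_⟩
    let LA : ℕ → Subgroup A := fun i => (L i).comap ι
    let LB : ℕ → Subgroup B := fun i => (L i).map π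
    have hA : Chn LA := by
      refine ⟨fun i => Subgroup.comap_mono (hL.anti i), ?_⟩
      intro i x hx y hy
      change ι (x * y * x⁻¹) ∈ L (i + 1)
      rw [map_mul, map_mul, map_inv]
      exact hL.nrm i _ hx _ hy
    have hB : Chn LB := by
      refine ⟨fun i => Subgroup.map_mono (hL.anti i), ?_⟩
      rintro i _ ⟨x, hx, rfl⟩ _ ⟨y, hy, rfl⟩
      exact ⟨x * y * x⁻¹, hL.nrm i _ hx _ hy, by rw [map_mul, map_mul, map_inv]⟩
    have hsub : {i | Dr L i} ⊆ {i | Dr LA i} ∪ {i | Dr LB i} := by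
      rintro i ⟨x, hx, hk⟩
      by_cases hBi : ∀ k : ℕ, 0 < k → (π x) ^ k ∉ LB (i + 1)
      · exact Or.inr ⟨π x, ⟨x, hx, rfl⟩, hBi⟩
      · left
        push Not at hBi
        obtain ⟨m, hm, y, hy, hyx⟩ := hBi
        have h1 : π (y⁻¹ * x ^ m) = 1 := by
          rw [map_mul, map_inv, hyx, map_pow, inv_mul_cancel]
        obtain ⟨c, hc⟩ := (hex _).1 h1
        refine ⟨c, ?_, ?_⟩
        · change ι c ∈ L i
          rw [hc]
          exact Subgroup.mul_mem _ (Subgroup.inv_mem _ (hL.anti i hy)) (Subgroup.pow_mem _ hx m)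
        · intro k hk0 hck
          have h2 : (y⁻¹ * x ^ m) ^ k ∈ L (i + 1) := by
            have h3 : ι (c ^ k) ∈ L (i + 1) := hck
            rwa [map_pow, hc] at h3
          obtain ⟨z, hz, hzk⟩ := hL.pow_mem (Subgroup.pow_mem _ hx m)
            (Subgroup.inv_mem _ hy) k
          rw [hzk] at h2
          have h4 : (x ^ m) ^ k ∈ L (i + 1) := (Subgroup.mul_mem_cancel_left _ hz).1 h2
          rw [← pow_mul] at h4
          exact hk _ (Nat.mul_pos hm hk0) h4
    refine (Set.encard_mono hsub).trans ((Set.encard_union_le _ _).trans ?_)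
    push_cast
    exact add_le_add (ha LA hA) (hb LB hB)

variable {C : ∀ (G : Type) [Group G], Prop} {G : Type} [Group G]

/-- `N` is the kernel of a homomorphism to a group in `C` -/
def Ker (C : ∀ (G : Type) [Group G], Prop) {G : Type} [Group G] (N : Subgroup G) : Prop :=
  ∃ (Q : Type) (_ : Group Q) (ρ : G →* Q), C Q ∧ ρ.ker = N

theorem Ker.inf (hC : ClosedE C) {N N' : Subgroup G} (h : Ker C N) (h' : Ker C N') :
    Ker C (N ⊓ N') := by
  obtain ⟨Q, _, ρ, hQ, rfl⟩ := h
  obtain ⟨Q', _, ρ', hQ', rfl⟩ := h'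
  refine ⟨Q × Q', inferInstance, ρ.prod ρ', hC.base.prod _ _ hQ hQ', ?_⟩
  ext x
  rw [MonoidHom.mem_ker, Subgroup.mem_inf, MonoidHom.mem_ker, MonoidHom.mem_ker,
    MonoidHom.prod_apply, Prod.mk_eq_one]

theorem Ker.top (hC : ClosedE C) : Ker C (⊤ : Subgroup G) :=
  ⟨Multiplicative ℤ, inferInstance, 1, hC.base.int, by
    ext x
    simp⟩

theorem Ker.normal {N : Subgroup G} (h : Ker C N) : N.Normal := by
  obtain ⟨Q, _, ρ, hQ, rfl⟩ := h
  infer_instance

theorem Ker.quot (hC : ClosedE C) {N : Subgroup G} (h : Ker C N) [N.Normal] : C (G ⧸ N) := by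
  obtain ⟨Q, _, ρ, hQ, hN⟩ := h
  refine hC.base.of_injective _ _ ((QuotientGroup.kerLift ρ).comp
    (QuotientGroup.quotientMulEquivOfEq hN.symm).toMonoidHom) ?_ hQ
  exact (QuotientGroup.kerLift_injective ρ).comp
    (QuotientGroup.quotientMulEquivOfEq hN.symm).injective

/-- every nontrivial element of `E` is detected by a homomorphism from `G` to a group in `C`, elements of
infinite order by one which maps them to elements of infinite order -/
def Detects (C : ∀ (G : Type) [Group G], Prop) {G : Type} [Group G] (E : Subgroup G) : Prop :=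
  ∀ x ∈ E, x ≠ 1 → ∃ (Q : Type) (_ : Group Q) (ρ : G →* Q), C Q ∧ ρ x ≠ 1 ∧
    (¬ IsOfFinOrder x → ¬ IsOfFinOrder (ρ x))

theorem detect_finite (hC : ClosedE C) (E : Subgroup G) (hd : Detects C E) (N : Subgroup G)
    (hN : Ker C N) (hfin : ((N ⊓ E : Subgroup G) : Set G).Finite) :
    ∃ N' : Subgroup G, Ker C N' ∧ N' ⊓ E = ⊥ := by
  classical
  have key : ∀ s : Finset G, ((s : Set G) ⊆ E) → ∃ N' : Subgroup G, N' ≤ N ∧ Ker C N' ∧
      ∀ x ∈ s, x ≠ 1 → x ∉ N' := by
    intro s
    induction s using Finset.induction_on with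
    | empty => exact fun _ => ⟨N, le_rfl, hN, by simp⟩
    | insert a s ha ih =>
      intro hs
      rw [Finset.coe_insert, Set.insert_subset_iff] at hs
      obtain ⟨N', h1, h2, h3⟩ := ih hs.2
      by_cases ha1 : a = 1
      · refine ⟨N', h1, h2, fun x hx hx1 => ?_⟩
        rcases Finset.mem_insert.1 hx with rfl | hx'
        · exact absurd ha1 hx1
        · exact h3 x hx' hx1
      · obtain ⟨Q, _, ρ, hQ, h4, -⟩ := hd a hs.1 ha1
        refine ⟨N' ⊓ ρ.ker, inf_le_left.trans h1, h2.inf hC ⟨Q, inferInstance, ρ, hQ, rfl⟩, ?_⟩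
        intro x hx hx1 hxN
        rw [Subgroup.mem_inf, MonoidHom.mem_ker] at hxN
        rcases Finset.mem_insert.1 hx with rfl | hx'
        · exact h4 hxN.2
        · exact h3 x hx' hx1 hxN.1
  obtain ⟨N', h1, h2, h3⟩ := key hfin.toFinset (by
    intro x hx
    rw [Set.Finite.coe_toFinset] at hx
    exact hx.2)
  refine ⟨N', h2, ?_⟩
  rw [Subgroup.eq_bot_iff_forall]
  intro x hx
  by_contra hx1
  rw [Subgroup.mem_inf] at hx
  exact h3 x (hfin.mem_toFinset.2 ⟨h1 hx.1, hx.2⟩) hx1 hx.1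

/-- detection element by element implies detection of the whole subgroup -/
theorem detect_all (hC : ClosedE C) (E : Subgroup G) (hE : FinHirsch E)
    (hfin : ∀ L : Subgroup G, L ≤ E → (∀ x ∈ L, IsOfFinOrder x) → (L : Set G).Finite)
    (hd : Detects C E) : ∃ N : Subgroup G, Ker C N ∧ N ⊓ E = ⊥ := by
  classical
  obtain ⟨n, hn⟩ := hE.bound
  by_cases h : ∃ N : Subgroup G, Ker C N ∧ ∀ x ∈ N ⊓ E, IsOfFinOrder x
  · obtain ⟨N, h1, h2⟩ := h
    exact detect_finite hC E hd N h1 (hfin _ inf_le_right h2)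
  exfalso
  push Not at h
  have step : ∀ N : {N : Subgroup G // Ker C N}, ∃ N' : {N : Subgroup G // Ker C N},
      N'.1 ≤ N.1 ∧ ∃ x ∈ N.1 ⊓ E, ∀ k : ℕ, 0 < k → x ^ k ∉ N'.1 := by
    rintro ⟨N, hN⟩
    obtain ⟨x, hx, hxo⟩ := h N hN
    have hx1 : x ≠ 1 := by
      rintro rfl
      exact hxo IsOfFinOrder.one
    obtain ⟨Q, _, ρ, hQ, -, h5⟩ := hd x (Subgroup.mem_inf.1 hx).2 hx1
    refine ⟨⟨N ⊓ ρ.ker, hN.inf hC ⟨Q, inferInstance, ρ, hQ, rfl⟩⟩, inf_le_left, x, hx, ?_⟩
    intro k hk hxk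
    rw [Subgroup.mem_inf, MonoidHom.mem_ker, map_pow] at hxk
    exact h5 hxo (isOfFinOrder_iff_pow_eq_one.2 ⟨k, hk, hxk.2⟩)
  choose f hf1 hf2 using step
  let s : ℕ → {N : Subgroup G // Ker C N} := fun i => f^[i] ⟨⊤, Ker.top hC⟩
  have hs : ∀ i, s (i + 1) = f (s i) := fun i => Function.iterate_succ_apply' f i _
  let L : ℕ → Subgroup E := fun i => (s i).1.subgroupOf E
  have hL : Chn L := by
    refine ⟨?_, ?_⟩
    · intro i x hx
      rw [Subgroup.mem_subgroupOf] at hx ⊢
      rw [hs] at hx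
      exact hf1 _ hx
    · intro i x _ y hy
      rw [Subgroup.mem_subgroupOf] at hy ⊢
      exact (s (i + 1)).2.normal.conj_mem _ hy _
  have hdr : ∀ i, Dr L i := by
    intro i
    obtain ⟨x, hx, hk⟩ := hf2 (s i)
    rw [Subgroup.mem_inf] at hx
    refine ⟨⟨x, hx.2⟩, hx.1, ?_⟩
    intro k hk0 hxk
    rw [Subgroup.mem_subgroupOf, hs] at hxk
    exact hk k hk0 hxk
  have h1 := hn L hL
  have h2 : {i | Dr L i} = Set.univ := Set.eq_univ_of_forall hdr
  rw [h2, Set.encard_univ, ENat.card_eq_top_of_infinite] at h1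
  exact absurd h1 (ENat.coe_lt_top n).not_ge

/-- the stabilizer of an edge -/
def edgeStab (G : Type) {V : Type} [Group G] [MulAction G V] (x y : V) : Subgroup G :=
  MulAction.stabilizer G x ⊓ MulAction.stabilizer G y

/-- the edges of a tree with finitely many orbits of edges are detected at once -/
theorem edges_detected (hC : ClosedE C) {V : Type} [MulAction G V] {Γ : SimpleGraph V}
    (hT : TreeAct G Γ) (D : Finset (V × V))
    (hD : ∀ x y, Γ.Adj x y → ∃ g : G, (g • x, g • y) ∈ D)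
    (hE : ∀ x y, Γ.Adj x y → FinHirsch (edgeStab G x y))
    (hfin : ∀ x y, Γ.Adj x y → ∀ L : Subgroup G, L ≤ edgeStab G x y →
      (∀ g ∈ L, IsOfFinOrder g) → (L : Set G).Finite)
    (hd : ∀ x y, Γ.Adj x y → Detects C (edgeStab G x y)) :
    ∃ N : Subgroup G, Ker C N ∧ ∀ x y, Γ.Adj x y → ∀ n ∈ N, n • x = x → n • y = y → n = 1 := by
  classical
  have key : ∀ s : Finset (V × V), ∃ N : Subgroup G, Ker C N ∧
      ∀ p ∈ s, Γ.Adj p.1 p.2 → N ⊓ edgeStab G p.1 p.2 = ⊥ := by
    intro s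
    induction s using Finset.induction_on with
    | empty => exact ⟨⊤, Ker.top hC, by simp⟩
    | insert a s ha ih =>
      obtain ⟨N, h1, h2⟩ := ih
      by_cases hadj : Γ.Adj a.1 a.2
      · obtain ⟨N', h3, h4⟩ := detect_all hC _ (hE _ _ hadj) (hfin _ _ hadj) (hd _ _ hadj)
        refine ⟨N ⊓ N', h1.inf hC h3, ?_⟩
        intro p hp hpadj
        rw [eq_bot_iff]
        rcases Finset.mem_insert.1 hp with rfl | hp'
        · rw [← h4]
          exact inf_le_inf_right _ inf_le_right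
        · rw [← h2 p hp' hpadj]
          exact inf_le_inf_right _ inf_le_left
      · refine ⟨N, h1, fun p hp hpadj => ?_⟩
        rcases Finset.mem_insert.1 hp with rfl | hp'
        · exact absurd hpadj hadj
        · exact h2 p hp' hpadj
  obtain ⟨N, h1, h2⟩ := key D
  refine ⟨N, h1, ?_⟩
  intro x y hxy n hn hx hy
  obtain ⟨g, hg⟩ := hD x y hxy
  have h3 := h2 _ hg (hT.adj g x y hxy)
  have h4 : g * n * g⁻¹ ∈ N ⊓ edgeStab G (g • x) (g • y) := by
    refine ⟨h1.normal.conj_mem n hn g, ?_, ?_⟩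
    · change (g * n * g⁻¹) • g • x = g • x
      rw [smul_smul, mul_assoc, mul_assoc, inv_mul_cancel, mul_one, mul_smul, hx]
    · change (g * n * g⁻¹) • g • y = g • y
      rw [smul_smul, mul_assoc, mul_assoc, inv_mul_cancel, mul_one, mul_smul, hy]
  rw [h3, Subgroup.mem_bot] at h4
  have h5 : n = g⁻¹ * (g * n * g⁻¹) * g := by group
  rw [h5, h4]
  group

/-- **groups acting on trees with edge stabilizers of finite Hirsch length** -/
theorem trees_hirsch (hC : ClosedE C) (hFb : FbC C) {ι : Type} [Finite ι]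
    (V : ι → Type) [∀ i, MulAction G (V i)] (Γ : ∀ i, SimpleGraph (V i))
    (hT : ∀ i, TreeAct G (Γ i)) (D : ∀ i, Finset (V i × V i))
    (hD : ∀ i x y, (Γ i).Adj x y → ∃ g : G, (g • x, g • y) ∈ D i)
    (hE : ∀ i x y, (Γ i).Adj x y → FinHirsch (edgeStab G x y))
    (hfin : ∀ i x y, (Γ i).Adj x y → ∀ L : Subgroup G, L ≤ edgeStab G x y →
      (∀ g ∈ L, IsOfFinOrder g) → (L : Set G).Finite)
    (hd : ∀ i x y, (Γ i).Adj x y → Detects C (edgeStab G x y))
    (hst : ∀ v : ∀ i, V i, C ↥(⨅ i, MulAction.stabilizer G (v i))) : C G := by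
  choose N hN1 hN2 using fun i => edges_detected hC (hT i) (D i) (hD i) (hE i) (hfin i) (hd i)
  haveI : ∀ i, (N i).Normal := fun i => (hN1 i).normal
  refine trees hC hFb V Γ hT N (fun i => (hN1 i).quot hC)
    (fun i v => MulAction.stabilizer G v) ?_ hst
  intro i v g hg
  have h1 : wild (Γ i) (N i) = ⊥ := by
    ext x y
    simp only [SimpleGraph.bot_adj, iff_false]
    rintro ⟨h, n, hn, hn1, hx, hy⟩
    exact hn1 (hN2 i x y h n hn hx hy)
  rw [h1, SimpleGraph.reachable_bot] at hg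
  exact hg.symm

end Pool.Agent.K7.H29.BC
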