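import Pool.Agent.Y110.FJ.Stm

/-!
# Topological rigidity of closed aspherical manifolds with a given fundamental group
-/

set_option autoImplicit false

namespace Pool.Agent.K7.H29.BC

open Pool.Agent.Y110.FJ

/-- **The assertion of the Borel conjecture for the group `G` in dimensions at least five**: any two
closed (connected) aspherical manifolds `M`, `N` of dimensions at least `5` with fundamental groups
isomorphic to `G` are homeomorphic, and every homotopy equivalence from `M` to `N` is homotopic to a
homeomorphism. -/
def BorelRigid (G : Type) [Group G] : Prop :=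
  ∀ (d e : ℕ), 5 ≤ d → 5 ≤ e →
    ∀ (M N : Type) [TopologicalSpace M] [TopologicalSpace N]
      [T2Space M] [T2Space N] [SecondCountableTopology M] [SecondCountableTopology N]
      [CompactSpace M] [CompactSpace N] [ConnectedSpace M] [ConnectedSpace N]
      [ChartedSpace (EuclideanSpace ℝ (Fin d)) M] [ChartedSpace (EuclideanSpace ℝ (Fin e)) N],
      (∀ n : ℕ, 2 ≤ n → ∀ x : M, Subsingleton (HomotopyGroup (Fin n) M x)) →
      (∀ n : ℕ, 2 ≤ n → ∀ y : N, Subsingleton (HomotopyGroup (Fin n) N y)) →
      (∃ x : M, Nonempty (FundamentalGroup M x ≃* G)) →
      (∃ y : N, Nonempty (FundamentalGroup N y ≃* G)) →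
      Nonempty (M ≃ₜ N) ∧
        ∀ f : ContinuousMap.HomotopyEquiv M N,
          ∃ h : M ≃ₜ N, ContinuousMap.Homotopic f.toFun (ContinuousMap.mk h h.continuous)

/-- What is known about the class `C` of the groups which satisfy the Full Farrell–Jones Conjecture:
the closure properties `ClosedE C`, the groups `F ⋊ Z`, `F` free (of any rank), are in `C`, and the
assertion of the Borel conjecture in dimensions at least five holds for the groups in `C` (for the
torsion-free ones this is the well known consequence of the Farrell–Jones conjecture, and the
fundamental groups of closed aspherical manifolds are torsion-free). -/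
structure Known (C : ∀ (G : Type) [Group G], Prop) : Prop where
  closed : ClosedE C
  freeByZ : ∀ (X : Type) (α : MulAut (FreeGroup X)),
    C (FreeGroup X ⋊[zpowersHom (MulAut (FreeGroup X)) α] Multiplicative ℤ)
  rigid : ∀ (G : Type) [Group G], C G → BorelRigid G

end Pool.Agent.K7.H29.BC
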