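import Pool.Agent.K7.H29.BC.Hirsch

/-!
# Invariant subtrees with finitely many orbits of edges
-/

set_option autoImplicit false

namespace Pool.Agent.K7.H29.BC

open Pool.Agent.Y110.FJ Pool.Agent.K7.H87.FJ3 Pool.Agent.R684.FP
open Pool.Agent.R941.FJ (C_le C_equiv)
open Pool.Agent.Helper270.Tree (TreeAct)

section sub

variable {H V : Type} [Group H] [MulAction H V] {Γ : SimpleGraph V}

/-- the vertices which can be moved to the finite set `F` -/
def mv (H : Type) {V : Type} [Group H] [MulAction H V] (F : Finset V) : Set V :=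
  {x | ∃ h : H, h • x ∈ F}

instance (F : Finset V) : MulAction H (mv H F) where
  smul g x := ⟨g • x.1, by
    obtain ⟨h, hh⟩ := x.2
    exact ⟨h * g⁻¹, by rwa [smul_smul, inv_mul_cancel_right]⟩⟩
  one_smul x := Subtype.ext (one_smul H x.1)
  mul_smul a b x := Subtype.ext (mul_smul a b x.1)

theorem mv_smul (F : Finset V) (g : H) (x : mv H F) : ((g • x : mv H F) : V) = g • (x : V) := rfl

/-- the edges which can be moved into the finite set `F` -/
def mvG (H : Type) {V : Type} [Group H] [MulAction H V] (Γ : SimpleGraph V) (F : Finset V) :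
    SimpleGraph (mv H F) where
  Adj x y := Γ.Adj x y ∧ ∃ h : H, h • (x : V) ∈ F ∧ h • (y : V) ∈ F
  symm := ⟨fun x y h => ⟨h.1.symm, by
    obtain ⟨g, h1, h2⟩ := h.2
    exact ⟨g, h2, h1⟩⟩⟩
  loopless := ⟨fun x h => Γ.loopless.irrefl x h.1⟩

theorem mvG_adj_smul (hT : TreeAct H Γ) (F : Finset V) (g : H) (x y : mv H F)
    (h : (mvG H Γ F).Adj x y) : (mvG H Γ F).Adj (g • x) (g • y) := by
  obtain ⟨h1, k, h2, h3⟩ := h
  refine ⟨hT.adj g x y h1, k * g⁻¹, ?_, ?_⟩
  · rw [mv_smul, smul_smul, inv_mul_cancel_right]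
    exact h2
  · rw [mv_smul, smul_smul, inv_mul_cancel_right]
    exact h3

theorem mvG_reach_smul (hT : TreeAct H Γ) (F : Finset V) (g : H) (x y : mv H F)
    (h : (mvG H Γ F).Reachable x y) : (mvG H Γ F).Reachable (g • x) (g • y) := by
  obtain ⟨w⟩ := h
  induction w with
  | nil => exact SimpleGraph.Reachable.refl _
  | cons hadj _ ih => exact (mvG_adj_smul hT F g _ _ hadj).reachable.trans ih

theorem exists_subtree (hT : TreeAct H Γ) (S : Finset H) (hS : Subgroup.closure (S : Set H) = ⊤)
    (v₀ : V) : ∃ F : Finset V, TreeAct H (mvG H Γ F) := by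
  classical
  let p : ∀ s : H, Γ.Walk v₀ (s • v₀) := fun s => (hT.isTree.connected v₀ (s • v₀)).some
  let F : Finset V := insert v₀ (S.biUnion fun s => (p s).support.toFinset)
  have hF : ∀ s ∈ S, ∀ u ∈ (p s).support, u ∈ F := fun s hs u hu =>
    Finset.mem_insert_of_mem (Finset.mem_biUnion.2 ⟨s, hs, List.mem_toFinset.2 hu⟩)
  have hv₀ : v₀ ∈ F := Finset.mem_insert_self _ _
  have hmem : ∀ u ∈ F, ∀ g : H, g • u ∈ mv H F := fun u hu g =>
    ⟨g⁻¹, by rwa [smul_smul, inv_mul_cancel, one_smul]⟩
  let o : mv H F := ⟨v₀, 1, by rwa [one_smul]⟩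
  let R : mv H F → Prop := fun x => (mvG H Γ F).Reachable o x
  -- moving along a walk
  have walk : ∀ (a b : V) (w : Γ.Walk a b), (∀ u ∈ w.support, u ∈ F) → ∀ (ha : a ∈ mv H F)
      (hb : b ∈ mv H F), (mvG H Γ F).Reachable ⟨a, ha⟩ ⟨b, hb⟩ := by
    intro a b w
    induction w with
    | nil =>
      intro _ _ _
      exact SimpleGraph.Reachable.refl _
    | @cons a c b hadj w ih =>
      intro hw ha hb
      rw [SimpleGraph.Walk.support_cons] at hw
      have haF : a ∈ F := hw a (List.mem_cons_self)
      have hcF : c ∈ F := hw c (List.mem_cons_of_mem _ w.start_mem_support)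
      have hc : c ∈ mv H F := ⟨1, by rwa [one_smul]⟩
      have h1 : (mvG H Γ F).Adj ⟨a, ha⟩ ⟨c, hc⟩ :=
        ⟨hadj, 1, by rwa [one_smul], by rwa [one_smul]⟩
      exact h1.reachable.trans (ih (fun u hu => hw u (List.mem_cons_of_mem _ hu)) hc hb)
  have gen : ∀ s ∈ S, R (s • o) := by
    intro s hs
    exact walk v₀ (s • v₀) (p s) (hF s hs) o.2 (s • o).2
  have all : ∀ g : H, R (g • o) := by
    intro g
    have hg : g ∈ Subgroup.closure (S : Set H) := by rw [hS]; exact Subgroup.mem_top g
    induction hg using Subgroup.closure_induction with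
    | mem s hs => exact gen s hs
    | one => rw [one_smul]
    | mul a b _ _ ha hb =>
      rw [mul_smul]
      exact SimpleGraph.Reachable.trans ha (mvG_reach_smul hT F a o (b • o) hb)
    | inv a _ ha =>
      have h1 := mvG_reach_smul hT F a⁻¹ o (a • o) ha
      rw [inv_smul_smul] at h1
      exact h1.symm
  have inF : ∀ u (hu : u ∈ F) (hu' : u ∈ mv H F), R ⟨u, hu'⟩ := by
    intro u hu hu'
    rcases Finset.mem_insert.1 hu with rfl | hu2
    · exact SimpleGraph.Reachable.refl _
    · obtain ⟨s, hs, hus⟩ := Finset.mem_biUnion.1 hu2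
      rw [List.mem_toFinset] at hus
      have h1 := walk v₀ u ((p s).takeUntil u hus) (fun w hw => hF s hs w
        ((p s).support_takeUntil_subset_support hus hw)) o.2 hu'
      exact h1
  refine ⟨F, ?_, mvG_adj_smul hT F, ?_⟩
  · refine ⟨?_, ?_⟩
    · rw [SimpleGraph.connected_iff]
      refine ⟨?_, ⟨o⟩⟩
      have key : ∀ x : mv H F, R x := by
        intro x
        obtain ⟨h, hh⟩ := x.2
        have h1 : R (h • x) := inF (h • (x : V)) hh (h • x).2
        have h2 := mvG_reach_smul hT F h⁻¹ o (h • x) h1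
        rw [inv_smul_smul] at h2
        exact SimpleGraph.Reachable.trans (all h⁻¹) h2
      intro x y
      exact (key x).symm.trans (key y)
    · let f : mvG H Γ F →g Γ := ⟨fun x => (x : V), fun h => h.1⟩
      exact hT.isTree.isAcyclic.comap f Subtype.val_injective
  · rintro g v w ⟨h1, -⟩ ⟨h2, h3⟩
    exact hT.noInv g v w h1 ⟨congrArg Subtype.val h2, congrArg Subtype.val h3⟩

end sub

theorem FinHirsch.of_injective {G : Type} [Group G] (h : FinHirsch G) :
    ∀ (K : Type) [Group K] (f : K →* G), Function.Injective f → FinHirsch K := by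
  induction h with
  | cyclic G g hg =>
    intro K _ f hf
    haveI : IsCyclic G := ⟨g, fun x => by
      obtain ⟨k, hk⟩ := hg x
      exact ⟨k, hk.symm⟩⟩
    haveI : IsCyclic K := isCyclic_of_injective f hf
    obtain ⟨c, hc⟩ := IsCyclic.exists_generator (α := K)
    refine FinHirsch.cyclic K c fun x => ?_
    obtain ⟨k, hk⟩ := hc x
    exact ⟨k, hk.symm⟩
  | torsion G hG =>
    intro K _ f hf
    refine FinHirsch.torsion K fun x => ?_
    exact (hf.isOfFinOrder_iff).1 (hG (f x))
  | ext A G B ι π hι hπ hex _ _ ihA ihB =>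
    intro K _ f hf
    let K₀ : Subgroup K := (π.comp f).ker
    have hA : FinHirsch K₀ := by
      have h1 : ∀ x : K₀, ∃ a, ι a = f x := fun x => (hex _).1 x.2
      choose a ha using h1
      let g : K₀ →* A := MonoidHom.mk' a (by
        intro x y
        apply hι
        rw [map_mul, ha, ha, ha, ← map_mul]
        rfl)
      refine ihA K₀ g ?_
      intro x y hxy
      have h2 : ι (a x) = ι (a y) := congrArg ι hxy
      rw [ha, ha] at h2
      exact Subtype.ext (hf h2)
    have hB : FinHirsch (π.comp f).range :=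
      ihB _ (π.comp f).range.subtype (Subgroup.subtype_injective _)
    refine FinHirsch.ext K₀ K (π.comp f).range K₀.subtype (π.comp f).rangeRestrict
      (Subgroup.subtype_injective _) (MonoidHom.rangeRestrict_surjective _) ?_ hA hB
    intro x
    constructor
    · intro hx
      have h1 : (π.comp f) x = 1 := congrArg Subtype.val hx
      exact ⟨⟨x, h1⟩, rfl⟩
    · rintro ⟨a, rfl⟩
      exact Subtype.ext a.2

/-- **groups acting on trees with edge stabilizers of finite Hirsch length**, without conditions on the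
numbers of orbits -/
theorem trees_hirsch' {C : ∀ (G : Type) [Group G], Prop} {G : Type} [Group G]
    (hC : ClosedE C) (hFb : FbC C) {ι : Type} [Finite ι]
    (V : ι → Type) [∀ i, MulAction G (V i)] (Γ : ∀ i, SimpleGraph (V i))
    (hT : ∀ i, TreeAct G (Γ i))
    (hE : ∀ i x y, (Γ i).Adj x y → FinHirsch (edgeStab G x y))
    (hfin : ∀ i x y, (Γ i).Adj x y → ∀ L : Subgroup G, L ≤ edgeStab G x y →
      (∀ g ∈ L, IsOfFinOrder g) → (L : Set G).Finite)
    (hd : ∀ i x y, (Γ i).Adj x y → Detects C (edgeStab G x y))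
    (hst : ∀ v : ∀ i, V i, C ↥(⨅ i, MulAction.stabilizer G (v i))) : C G := by
  classical
  have key : ∀ S : Finset G, C ↥(Subgroup.closure (S : Set G)) := by
    intro S
    let H : Subgroup G := Subgroup.closure (S : Set G)
    have hfinS : ((Subtype.val : H → G) ⁻¹' (S : Set G)).Finite :=
      S.finite_toSet.preimage Subtype.val_injective.injOn
    let S' : Finset H := hfinS.toFinset
    have hS' : Subgroup.closure (S' : Set H) = ⊤ := by
      rw [Set.Finite.coe_toFinset]
      exact Subgroup.closure_closure_coe_preimage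
    have hT' : ∀ i, TreeAct H (Γ i) := fun i => TreeAct.restrict (hT i) H
    choose F hF using fun i => exists_subtree (hT' i) S' hS' (hT i).isTree.connected.nonempty.some
    have hsub : ∀ (i : ι) (x y : mv H (F i)), ∀ g ∈ edgeStab H x y,
        ((g : H) : G) ∈ edgeStab G (x : V i) (y : V i) := by
      intro i x y g hg
      exact ⟨congrArg Subtype.val hg.1, congrArg Subtype.val hg.2⟩
    refine trees_hirsch hC hFb (fun i => mv H (F i)) (fun i => mvG H (Γ i) (F i)) hF
      (fun i => ((F i).subtype (· ∈ mv H (F i))) ×ˢ ((F i).subtype (· ∈ mv H (F i)))) ?_ ?_ ?_ ?_ ?_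
    · rintro i x y ⟨-, h, h1, h2⟩
      refine ⟨h, Finset.mem_product.2 ⟨Finset.mem_subtype.2 h1, Finset.mem_subtype.2 h2⟩⟩
    · intro i x y hxy
      let f : edgeStab H x y →* edgeStab G (x : V i) (y : V i) :=
        { toFun := fun g => ⟨((g : H) : G), hsub i x y g g.2⟩
          map_one' := rfl
          map_mul' := fun _ _ => rfl }
      refine (hE i x y hxy.1).of_injective _ f ?_
      intro a b hab
      have h1 := congrArg Subtype.val hab
      exact Subtype.ext (Subtype.ext h1)
    · intro i x y hxy L hL hLt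
      have h1 := hfin i x y hxy.1 (L.map H.subtype) (by
        rintro _ ⟨g, hg, rfl⟩
        exact hsub i x y g (hL hg)) (by
        rintro _ ⟨g, hg, rfl⟩
        exact (Subtype.val_injective : Function.Injective H.subtype).isOfFinOrder_iff.2 (hLt g hg))
      rw [Subgroup.coe_map] at h1
      exact Set.Finite.of_finite_image h1 (Subtype.val_injective.injOn)
    · intro i x y hxy g hg hg1
      obtain ⟨Q, _, ρ, hQ, h2, h3⟩ := hd i x y hxy.1 g (hsub i x y g hg)
        (fun h => hg1 (Subtype.ext h))
      refine ⟨Q, inferInstance, ρ.comp H.subtype, hQ, h2, ?_⟩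
      intro h4
      apply h3
      intro h5
      exact h4 ((Function.Injective.isOfFinOrder_iff (f := H.subtype) Subtype.val_injective).1 h5)
    · intro v
      let f : ↥(⨅ i, MulAction.stabilizer H (v i)) →*
          ↥(⨅ i, MulAction.stabilizer G ((v i : mv H (F i)) : V i)) :=
        { toFun := fun g => ⟨((g : H) : G), by
            have h1 := g.2
            rw [Subgroup.mem_iInf] at h1 ⊢
            intro i
            exact congrArg Subtype.val (h1 i)⟩
          map_one' := rfl
          map_mul' := fun _ _ => rfl }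
      refine hC.base.of_injective _ _ f ?_ (hst _)
      intro a b hab
      have h1 := congrArg Subtype.val hab
      exact Subtype.ext (Subtype.ext h1)
  refine Pool.Agent.Y430.SS.of_directed hC.base G (Finset G) (fun i j => ⟨i ∪ j,
    Finset.subset_union_left, Finset.subset_union_right⟩)
    (fun s => Subgroup.closure (s : Set G))
    (fun s t h => Subgroup.closure_mono (by exact_mod_cast h))
    (fun g => ⟨{g}, Subgroup.subset_closure (by simp)⟩) key

end Pool.Agent.K7.H29.BC
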