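import Pool.Agent.K7.H29.BC.Rigid
import Pool.Agent.K7.H87.FJ3.Hnn

/-!
# Groups acting on finitely many trees
-/

set_option autoImplicit false

namespace Pool.Agent.K7.H29.BC

open Pool.Agent.Y110.FJ Pool.Agent.K7.H87.FJ3 Pool.Agent.R684.FP
open Pool.Agent.R941.FJ (C_le C_equiv)
open Pool.Agent.Helper270.Tree (TreeAct)

theorem TreeAct.restrict {G V : Type} [Group G] [MulAction G V] {Γ : SimpleGraph V}
    (hT : TreeAct G Γ) (H : Subgroup G) : TreeAct H Γ where
  isTree := hT.isTree
  adj := fun g v w h => hT.adj (g : G) v w h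
  noInv := fun g v w h => hT.noInv (g : G) v w h

theorem trees_closed {C : ∀ (G : Type) [Group G], Prop} (hC : ClosedE C) (hFb : FbC C)
    {G ι : Type} [Group G] (V : ι → Type) [∀ i, MulAction G (V i)] (Γ : ∀ i, SimpleGraph (V i))
    (N : ι → Subgroup G) [∀ i, (N i).Normal] (hQ : ∀ i, C (G ⧸ N i))
    (S : ∀ i, V i → Subgroup G)
    (hS : ∀ i v g, (wild (Γ i) (N i)).Reachable v (g • v) → g ∈ S i v)
    (s : Finset ι) (hT : ∀ i ∈ s, TreeAct G (Γ i))
    (H : Subgroup G)
    (hst : ∀ v : ∀ i, V i, C ↥(H ⊓ ⨅ i ∈ s, S i (v i)))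
    (v₀ : ∀ i, V i) : C ↥H := by
  classical
  induction s using Finset.induction_on generalizing H with
  | empty =>
    refine C_le hC.base ?_ (hst v₀)
    simp
  | insert a s ha ih =>
    refine tree_closed hC hFb (TreeAct.restrict (hT a (Finset.mem_insert_self a s)) H)
      ((N a).subgroupOf H) ?_ (fun w => (S a w).subgroupOf H) ?_ ?_
    · -- the quotient
      let ρ : H →* G ⧸ N a := (QuotientGroup.mk' (N a)).comp H.subtype
      have h1 : (N a).subgroupOf H = ρ.ker := by
        ext x
        rw [Subgroup.mem_subgroupOf, MonoidHom.mem_ker]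
        change (x : G) ∈ N a ↔ QuotientGroup.mk' (N a) (x : G) = 1
        rw [QuotientGroup.mk'_apply, QuotientGroup.eq_one_iff]
      refine hC.base.of_injective _ _ ((QuotientGroup.kerLift ρ).comp
        (QuotientGroup.quotientMulEquivOfEq h1).toMonoidHom) ?_ (hQ a)
      exact (QuotientGroup.kerLift_injective ρ).comp
        (QuotientGroup.quotientMulEquivOfEq h1).injective
    · intro w g hg
      rw [Subgroup.mem_subgroupOf]
      refine hS a w g ?_
      refine SimpleGraph.Reachable.mono ?_ hg
      intro x y hxy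
      obtain ⟨h1, n, h2, h3, h4, h5⟩ := hxy
      refine ⟨h1, (n : G), Subgroup.mem_subgroupOf.1 h2, fun h => h3 (Subtype.ext h), h4, h5⟩
    · intro w
      have h1 : C ↥(H ⊓ S a w) := by
        refine ih (fun i hi => hT i (Finset.mem_insert_of_mem hi)) _ ?_
        intro v
        refine C_le hC.base ?_ (hst (Function.update v a w))
        intro x hx
        rw [Subgroup.mem_inf, Subgroup.mem_inf] at hx
        refine Subgroup.mem_inf.2 ⟨hx.1.1, ?_⟩
        simp only [Subgroup.mem_iInf] at hx ⊢
        intro i hi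
        rcases Finset.mem_insert.1 hi with rfl | hi'
        · rw [Function.update_self]
          exact hx.1.2
        · have hne : i ≠ a := fun h => ha (h ▸ hi')
          rw [Function.update_of_ne hne]
          exact hx.2 i hi'
      let f : (S a w).subgroupOf H →* ↥(H ⊓ S a w) :=
        { toFun := fun x => ⟨((x : H) : G), ⟨(x : H).2, Subgroup.mem_subgroupOf.1 x.2⟩⟩
          map_one' := rfl
          map_mul' := fun _ _ => rfl }
      refine hC.base.of_injective _ _ f ?_ h1
      intro x y hxy
      have h2 := congrArg Subtype.val hxy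
      exact Subtype.ext (Subtype.ext h2)

/-- **groups acting on finitely many trees** -/
theorem trees {C : ∀ (G : Type) [Group G], Prop} (hC : ClosedE C) (hFb : FbC C)
    {G ι : Type} [Group G] [Finite ι] (V : ι → Type) [∀ i, MulAction G (V i)]
    (Γ : ∀ i, SimpleGraph (V i)) (hT : ∀ i, TreeAct G (Γ i))
    (N : ι → Subgroup G) [∀ i, (N i).Normal] (hQ : ∀ i, C (G ⧸ N i))
    (S : ∀ i, V i → Subgroup G)
    (hS : ∀ i v g, (wild (Γ i) (N i)).Reachable v (g • v) → g ∈ S i v)
    (hst : ∀ v : ∀ i, V i, C ↥(⨅ i, S i (v i))) : C G := by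
  classical
  cases nonempty_fintype ι
  have hne : ∀ i, Nonempty (V i) := fun i => (hT i).isTree.connected.nonempty
  have h1 : C ↥(⊤ : Subgroup G) := by
    refine trees_closed hC hFb V Γ N hQ S hS Finset.univ (fun i _ => hT i) ⊤ ?_
      (fun i => (hne i).some)
    intro v
    refine C_le hC.base ?_ (hst v)
    intro x hx
    simpa using hx.2
  exact hC.base.of_injective _ _ (Subgroup.topEquiv (G := G)).symm.toMonoidHom
    (Subgroup.topEquiv (G := G)).symm.injective h1

end Pool.Agent.K7.H29.BC
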